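import Pool.Agent.L5helper21.DS.Poly

/-!
# Bundles with many homologies: the invariant sections generate
-/

set_option autoImplicit false
set_option maxHeartbeats 400000

open MvPolynomial H960VB H938TB Pool.Agent.W615 Pool.Agent.W467.FO

namespace Pool.Agent.L5helper21.DS

variable {n : ℕ} {E : Bundle2 n}

section step
variable {T : (Fin (n + 1) → ℂ) →ₗ[ℂ] (Fin (n + 1) → ℂ)} (O : GOp E T)

/-- `O - α` -/
noncomputable def step (α : ℂ) (G : Vec E.a n) : Vec E.a n := fun j => O.D G j - C α * G j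

theorem step_sec {α : ℂ} {d : ℤ} {G : Vec E.a n} (h : Sec E d G) : Sec E d (step O α G) := by
  have h1 := sec_mul (Or.inr ⟨0, rfl, isHomogeneous_C _ α⟩ :
      HomZ (C α : MvPolynomial (Fin (n + 1)) ℂ) 0) h
  rw [zero_add] at h1
  exact sec_sub (O.sec d G h) h1

theorem iter_sec {α : ℂ} {d : ℤ} {G : Vec E.a n} (h : Sec E d G) (k : ℕ) :
    Sec E d ((step O α)^[k] G) := by
  induction k with
  | zero => exact h
  | succ k ih => rw [Function.iterate_succ_apply']; exact step_sec O ih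

theorem coe_step (α : ℂ) (d : ℤ) (s : S0 E d) :
    ((O.lin d - α • 1) s : Vec E.a n) = step O α s := by
  funext j
  rw [LinearMap.sub_apply, LinearMap.smul_apply, Module.End.one_apply]
  show O.D (s : Vec E.a n) j - (α • (s : Vec E.a n)) j = _
  rw [Pi.smul_apply, smul_eq_C_mul]
  rfl

theorem coe_pow (α : ℂ) (d : ℤ) (k : ℕ) : ∀ s : S0 E d,
    (((O.lin d - α • 1) ^ k) s : Vec E.a n) = (step O α)^[k] s := by
  induction k with
  | zero => intro s; rfl
  | succ k ih =>
    intro s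
    rw [pow_succ, Module.End.mul_apply, ih, coe_step, Function.iterate_succ_apply]

/-- generalised eigensections, as vectors -/
def GEv (d : ℤ) (α : ℂ) (G : Vec E.a n) : Prop :=
  Sec E d G ∧ ∃ k : ℕ, (step O α)^[k] G = 0

theorem gev_iff {d : ℤ} {α : ℂ} {s : S0 E d} : GEv O d α s ↔ O.GE d α s := by
  constructor
  · rintro ⟨-, k, hk⟩
    refine ⟨k, Subtype.ext ?_⟩
    rw [coe_pow, hk]
    rfl
  · rintro ⟨k, hk⟩
    refine ⟨s.2, k, ?_⟩
    rw [← coe_pow, hk]
    rfl

theorem D_zero : O.D (0 : Vec E.a n) = 0 := by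
  have h1 := O.smul_sec (sec_zero (E := E) (d := 0)) 0
  funext j
  have h2 := congrFun h1 j
  simp only [C_0, zero_mul] at h2
  exact h2

theorem step_zero (α : ℂ) (k : ℕ) : (step O α)^[k] (0 : Vec E.a n) = 0 := by
  induction k with
  | zero => rfl
  | succ k ih =>
    rw [Function.iterate_succ_apply', ih]
    funext j
    show O.D (0 : Vec E.a n) j - C α * 0 = 0
    rw [D_zero]
    simp

theorem gev_zero {d : ℤ} {α : ℂ} : GEv O d α (0 : Vec E.a n) := ⟨sec_zero, 0, rfl⟩

/-- division of generalised eigensections by an eigenform -/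
theorem iter_mul {α c : ℂ} (hc : c ≠ 0) {d e : ℤ} {p : MvPolynomial (Fin (n + 1)) ℂ}
    (hp : HomZ p e) (hpc : lsub T p = C c * p) (k : ℕ) : ∀ {G : Vec E.a n}, Sec E d G →
    (step O α)^[k] (fun j => p * G j) = fun j => C (c ^ k) * (p * ((step O (α / c))^[k] G) j) := by
  induction k with
  | zero => intro G _; funext j; simp
  | succ k ih =>
    intro G hG
    have h1 : step O α (fun j => p * G j) = fun j => C c * (p * step O (α / c) G j) := by
      funext j
      show O.D (fun j => p * G j) j - C α * (p * G j) = C c * (p * (O.D G j - C (α / c) * G j))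
      rw [O.mul d e p G hG hp, hpc]
      have h2 : (C α : MvPolynomial (Fin (n + 1)) ℂ) = C c * C (α / c) := by
        rw [← C_mul]
        congr 1
        field_simp
      rw [h2]
      ring
    have h3 : (fun j => C c * (p * step O (α / c) G j)) =
        fun j => p * ((fun j => C c * step O (α / c) G j : Vec E.a n) j) := by
      funext j
      ring
    have h4 : Sec E d (fun j => C c * step O (α / c) G j) := by
      have := sec_mul (Or.inr ⟨0, rfl, isHomogeneous_C _ c⟩ :
        HomZ (C c : MvPolynomial (Fin (n + 1)) ℂ) 0) (step_sec O (α := α / c) hG)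
      rwa [zero_add] at this
    rw [Function.iterate_succ_apply, h1, h3, ih h4]
    funext j
    have h5 : ∀ {H : Vec E.a n} (k : ℕ), Sec E d H → (step O (α / c))^[k]
        (fun j => C c * H j) = fun j => C c * ((step O (α / c))^[k] H) j := by
      intro H k hH
      have h6 : (fun j => C c * H j) = ((c • (⟨H, hH⟩ : S0 E d) : S0 E d) : Vec E.a n) := by
        funext j
        rw [Submodule.coe_smul, Pi.smul_apply, smul_eq_C_mul]
      rw [h6, ← coe_pow, map_smul]
      funext j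
      rw [Submodule.coe_smul, Pi.smul_apply, smul_eq_C_mul, coe_pow]
    rw [h5 k (step_sec O hG), ← Function.iterate_succ_apply, pow_succ, C_mul]
    ring

theorem gev_div {α c : ℂ} (hc : c ≠ 0) {d e d' : ℤ} {p : MvPolynomial (Fin (n + 1)) ℂ}
    (hp : HomZ p e) (hp0 : p ≠ 0) (hpc : lsub T p = C c * p) {G : Vec E.a n} (hG : Sec E d G)
    (h : GEv O d' α (fun j => p * G j)) : GEv O d (α / c) G := by
  obtain ⟨-, k, hk⟩ := h
  refine ⟨hG, k, ?_⟩
  rw [iter_mul O hc hp hpc k hG] at hk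
  funext j
  have h1 := congrFun hk j
  have h2 : (C (c ^ k) : MvPolynomial (Fin (n + 1)) ℂ) ≠ 0 := by
    rw [Ne, C_eq_zero]
    exact pow_ne_zero _ hc
  exact (mul_eq_zero.1 ((mul_eq_zero.1 h1).resolve_left h2)).resolve_left hp0

end step

/-- at the hyperplane of a homology there is only one type -/
theorem type_hyp (hn : 3 ≤ n) (hE : ¬ E.Splits) (W : Wedge (triv E)) {i : Fin (n + 1)} {z : ℂ}
    (hz : z ≠ 0) (O : GOp E (hg i z).mulVecLin) {κ : ℂ} (hκ0 : κ ≠ 0)
    (hκ : ∀ (a b : ℤ) (s t : Vec E.a n), Sec E a s → Sec E b t →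
      W.wd (O.D s) (O.D t) = C κ * lsub (hg i z).mulVecLin (W.wd s t)) :
    ∃ u : ℂ, u * u = κ ∧ ∀ (d : ℤ) (α : ℂ) (G : Vec E.a n), GEv O d α G → α ≠ u →
      ∀ j, X i ∣ G j := by
  have hle : LinearMap.ker (LinearMap.proj i : (Fin (n + 1) → ℂ) →ₗ[ℂ] ℂ) ≤
      LinearMap.ker ((hg i z).mulVecLin - (1 : ℂ) • LinearMap.id) := by
    intro x hx
    rw [LinearMap.mem_ker, LinearMap.proj_apply] at hx
    rw [LinearMap.mem_ker, LinearMap.sub_apply, LinearMap.smul_apply, LinearMap.id_apply, one_smul,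
      sub_eq_zero]
    funext s
    rw [hg_apply]
    by_cases hs : s = i
    · rw [hs, hx, mul_zero]
    · rw [if_neg hs, one_mul]
  have hfin : 3 ≤ Module.finrank ℂ (LinearMap.ker ((hg i z).mulVecLin - (1 : ℂ) • LinearMap.id)) := by
    refine le_trans ?_ (Submodule.finrank_mono hle)
    have h1 := LinearMap.finrank_range_add_finrank_ker
      (LinearMap.proj i : (Fin (n + 1) → ℂ) →ₗ[ℂ] ℂ)
    rw [Module.finrank_fintype_fun_eq_card, Fintype.card_fin] at h1
    have h2 : Module.finrank ℂ (LinearMap.range (LinearMap.proj i : (Fin (n + 1) → ℂ) →ₗ[ℂ] ℂ)) ≤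
        1 := by
      refine (Submodule.finrank_le _).trans ?_
      rw [Module.finrank_self]
    omega
  obtain ⟨k, S, hk2, hkn, hSi, hTS, hr⟩ := exists_S 1 hfin
  have hES : ¬ (E.pull S hSi).Splits := fun h =>
    hE (Bundle2.splits_of_pull (n - k) k n hk2 (by omega) E S hSi h)
  obtain ⟨u, hu, hu'⟩ := O.typeV W hκ0 hκ (by omega) S hSi one_ne_zero hTS hES
  refine ⟨u, by rw [hu, one_zpow, mul_one], fun d α G hG hα j => ?_⟩
  apply X_dvd
  intro x hx
  obtain ⟨y, hy⟩ := hr x (by
    funext s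
    rw [hg_apply, one_smul]
    by_cases hs : s = i
    · rw [hs, hx, mul_zero]
    · rw [if_neg hs, one_mul])
  by_contra hne
  apply hα
  have h1 := hu' d α ⟨G, hG.1⟩ ((gev_iff O).1 hG) ⟨j, ?_⟩
  · rw [h1, one_zpow, mul_one]
  · intro h0
    apply hne
    have h2 : lsub S (G j) = 0 := h0
    rw [← hy, ← eval_lsub, h2, map_zero]

/-- division of a section by a coordinate -/
theorem sec_div {i : Fin (n + 1)} {d : ℤ} {G : Vec E.a n} (hG : Sec E d G)
    (h : ∀ j, X i ∣ G j) : ∃ H : Vec E.a n, Sec E (d - 1) H ∧ G = fun j => X i * H j := by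
  choose H hH using h
  refine ⟨H, ?_, funext hH⟩
  have hX : HomZ (X i : MvPolynomial (Fin (n + 1)) ℂ) 1 := Or.inr ⟨1, rfl, isHomogeneous_X ℂ i⟩
  have hX0 : (X i : MvPolynomial (Fin (n + 1)) ℂ) ≠ 0 := X_ne_zero i
  rw [sec_iff]
  have h1 : Ker E H := by
    intro k
    apply mul_left_cancel₀ hX0
    rw [mul_zero, Finset.mul_sum, ← hG.ker k]
    refine Finset.sum_congr rfl fun j _ => ?_
    rw [hH j]
    ring
  refine ⟨fun j => ?_, fun x hx => T3aux.ker_mem h1 x⟩
  have h2 := hG.homZ j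
  rw [hH j] at h2
  have h3 := homZ_of_mul hX hX0 h2
  convert h3 using 1
  ring

/-- a bound for the degrees of the sections -/
theorem exists_low (E : Bundle2 n) : ∃ B : ℤ, ∀ (d : ℤ) (G : Vec E.a n), Sec E d G → G ≠ 0 →
    0 ≤ d + B := by
  refine ⟨∑ j, |E.β j|, fun d G hG h0 => ?_⟩
  obtain ⟨j, hj⟩ := Function.ne_iff.1 h0
  rcases hG.homZ j with h | ⟨k, hk, -⟩
  · exact absurd h hj
  · have h1 : E.β j ≤ ∑ j, |E.β j| := (le_abs_self _).trans
      (Finset.single_le_sum (f := fun j => |E.β j|) (fun j _ => abs_nonneg _) (Finset.mem_univ j))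
    omega

/-- Every joint generalised eigensection is a monomial times one which is invariant at all the
hyperplanes. -/
theorem core {z : Fin (n + 1) → ℂ} (hz : ∀ i, z i ≠ 0)
    (O : ∀ i, GOp E (hg i (z i)).mulVecLin) {u : Fin (n + 1) → ℂ}
    (hu : ∀ i (d : ℤ) (α : ℂ) (G : Vec E.a n), GEv (O i) d α G → α ≠ u i → ∀ j, X i ∣ G j)
    {B : ℤ} (hB : ∀ (d : ℤ) (G : Vec E.a n), Sec E d G → G ≠ 0 → 0 ≤ d + B) :
    ∀ (N : ℕ) (d : ℤ) (G : Vec E.a n) (χ : Fin (n + 1) → ℂ), Sec E d G →
      (∀ i, GEv (O i) d (χ i) G) → G ≠ 0 → d + B ≤ N →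
      ∃ (q : MvPolynomial (Fin (n + 1)) ℂ) (d₀ : ℤ) (G₀ : Vec E.a n),
        G = (fun j => q * G₀ j) ∧ Sec E d₀ G₀ ∧ (∀ i, GEv (O i) d₀ (u i) G₀) ∧ G₀ ≠ 0 := by
  intro N
  induction N with
  | zero =>
    intro d G χ hG hχ h0 hN
    have hχu : ∀ i, χ i = u i := by
      intro i
      by_contra hne
      obtain ⟨H, hH, hGH⟩ := sec_div hG (hu i d (χ i) G (hχ i) hne)
      have hH0 : H ≠ 0 := by
        rintro rfl
        apply h0
        rw [hGH]
        funext j
        simp
      have := hB _ H hH hH0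
      push_cast at hN
      omega
    refine ⟨1, d, G, by funext j; rw [one_mul], hG, fun i => ?_, h0⟩
    rw [← hχu i]
    exact hχ i
  | succ N ih =>
    intro d G χ hG hχ h0 hN
    by_cases hall : ∀ i, χ i = u i
    · refine ⟨1, d, G, by funext j; rw [one_mul], hG, fun i => ?_, h0⟩
      rw [← hall i]
      exact hχ i
    push Not at hall
    obtain ⟨i, hi⟩ := hall
    obtain ⟨H, hH, hGH⟩ := sec_div hG (hu i d (χ i) G (hχ i) hi)
    have hH0 : H ≠ 0 := by
      rintro rfl
      apply h0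
      rw [hGH]
      funext j
      simp
    have hX : HomZ (X i : MvPolynomial (Fin (n + 1)) ℂ) 1 := Or.inr ⟨1, rfl, isHomogeneous_X ℂ i⟩
    obtain ⟨q, d₀, G₀, h1, h2, h3, h4⟩ := ih (d - 1) H
      (fun k => χ k / (if i = k then z k else 1)) hH (fun k => by
        have hck : (if i = k then z k else 1) ≠ 0 := by
          split_ifs
          · exact hz k
          · exact one_ne_zero
        refine gev_div (O k) hck hX (X_ne_zero i) (lsub_X k (z k) i) hH (d' := d) ?_
        rw [← hGH]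
        exact hχ k) hH0 (by push_cast at hN; omega)
    refine ⟨X i * q, d₀, G₀, ?_, h2, h3, h4⟩
    rw [hGH, h1]
    funext j
    ring

end Pool.Agent.L5helper21.DS
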