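import Pool.Agent.L5helper21.DS.Core

/-!
# A finite family of sections, invariant at all the hyperplanes, which generates the bundle
-/

set_option autoImplicit false
set_option maxHeartbeats 400000

open MvPolynomial H960VB H938TB Pool.Agent.W615 Pool.Agent.W467.FO

namespace Pool.Agent.L5helper21.DS

variable {n : ℕ} {E : Bundle2 n}

theorem span_joint {ι : Type*} {T : ι → ((Fin (n + 1) → ℂ) →ₗ[ℂ] (Fin (n + 1) → ℂ))}
    (O : ∀ i, GOp E (T i))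
    (hcomm : ∀ i j d, Commute ((O i).lin d) ((O j).lin d)) (d : ℤ) :
    Submodule.span ℂ {s : S0 E d | s ≠ 0 ∧ ∃ χ : ι → ℂ, ∀ i, GEv (O i) d (χ i) s} = ⊤ := by
  have hspan : Submodule.span ℂ {s : S0 E d | ∃ χ : ι → ℂ, ∀ i, GEv (O i) d (χ i) s} = ⊤ := by
    rw [eq_top_iff, ← Module.End.iSup_iInf_maxGenEigenspace_eq_top_of_iSup_maxGenEigenspace_eq_top_of_commute
      (fun i => (O i).lin d) (fun i j _ => hcomm i j d)
      (fun i => Module.End.iSup_maxGenEigenspace_eq_top _)]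
    refine iSup_le fun χ v hv => Submodule.subset_span ⟨χ, fun i => ?_⟩
    rw [Submodule.mem_iInf] at hv
    have := hv i
    rw [Module.End.mem_maxGenEigenspace] at this
    rw [gev_iff]
    exact this
  rw [← hspan]
  apply le_antisymm
  · exact Submodule.span_mono fun s hs => hs.2
  · rw [Submodule.span_le]
    intro s hs
    by_cases h0 : s = 0
    · rw [h0]
      exact Submodule.zero_mem _
    · exact Submodule.subset_span ⟨h0, hs⟩

theorem family (W : Wedge (triv E)) {z : Fin (n + 1) → ℂ} (hz : ∀ i, z i ≠ 0)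
    (O : ∀ i, GOp E (hg i (z i)).mulVecLin)
    (hcomm : ∀ i j d, Commute ((O i).lin d) ((O j).lin d)) {u : Fin (n + 1) → ℂ}
    (hu : ∀ i (d : ℤ) (α : ℂ) (G : Vec E.a n), GEv (O i) d α G → α ≠ u i → ∀ j, X i ∣ G j) :
    ∃ (N : ℕ) (δ : Fin N → ℤ) (g : Fin N → Vec E.a n), (∀ j, Sec E (δ j) (g j)) ∧
      (∀ j i, GEv (O i) (δ j) (u i) (g j)) ∧ (∀ j, g j ≠ 0) ∧
      ∀ x : Fin (n + 1) → ℂ, x ≠ 0 → ∃ j k, eval x (W.wd (g j) (g k)) ≠ 0 := by
  classical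
  obtain ⟨d, hd⟩ := exists_deg W
  obtain ⟨B, hB⟩ := exists_low E
  set t : Set (S0 E d) := {s | s ≠ 0 ∧ ∃ χ : Fin (n + 1) → ℂ, ∀ i, GEv (O i) d (χ i) s} with ht
  have hspan : Submodule.span ℂ t = ⊤ := span_joint O hcomm d
  obtain ⟨s, hs1, hs2⟩ := (Submodule.fg_span_iff_fg_span_finset_subset t).1
    (by rw [hspan]; exact Module.Finite.fg_top)
  have hs3 : ∀ j : Fin s.card, ∃ (q : MvPolynomial (Fin (n + 1)) ℂ) (d₀ : ℤ) (G₀ : Vec E.a n),
      ((s.equivFin.symm j : S0 E d) : Vec E.a n) = (fun j => q * G₀ j) ∧ Sec E d₀ G₀ ∧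
        (∀ i, GEv (O i) d₀ (u i) G₀) ∧ G₀ ≠ 0 := by
    intro j
    obtain ⟨h0, χ, hχ⟩ := hs1 (s.equivFin.symm j).2
    refine core hz O hu hB (d + B).toNat d _ χ (s.equivFin.symm j : S0 E d).2 hχ ?_
      (Int.self_le_toNat _)
    intro h
    apply h0
    exact Subtype.ext h
  choose q δ g h1 h2 h3 h4 using hs3
  refine ⟨s.card, δ, g, h2, h3, h4, fun x hx => ?_⟩
  by_contra hc
  push Not at hc
  obtain ⟨G, G', hG, hG', h⟩ := hd x hx
  apply h
  let F : S0 E d →ₗ[ℂ] S0 E d →ₗ[ℂ] ℂ := (wdB W d d).compr₂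
    (aeval x : MvPolynomial (Fin (n + 1)) ℂ →ₐ[ℂ] ℂ).toLinearMap
  have hFa : ∀ a b : S0 E d, F a b = eval x (W.wd a b) := fun a b => rfl
  have hspan' : Submodule.span ℂ (s : Set (S0 E d)) = ⊤ := by rw [← hs2, hspan]
  have hval : ∀ a ∈ (s : Set (S0 E d)), ∀ b ∈ (s : Set (S0 E d)), F a b = 0 := by
    intro a ha b hb
    obtain ⟨j, hj⟩ : ∃ j, (s.equivFin.symm j : S0 E d) = a := ⟨s.equivFin ⟨a, ha⟩, by simp⟩
    obtain ⟨k, hk⟩ : ∃ k, (s.equivFin.symm k : S0 E d) = b := ⟨s.equivFin ⟨b, hb⟩, by simp⟩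
    rw [hFa, ← hj, ← hk, h1 j, h1 k, W.smul _ _ _ (h2 j).ker (ker_mul (h2 k).ker _),
      wd_mul_right W (h2 k).ker (h2 j).ker, map_mul, map_mul, hc j k, mul_zero, mul_zero]
  have hF : F = 0 := by
    refine LinearMap.ext_on hspan' fun a ha => LinearMap.ext_on hspan' fun b hb => ?_
    exact hval a ha b hb
  have h5 := congrArg (fun f : S0 E d →ₗ[ℂ] S0 E d →ₗ[ℂ] ℂ => f ⟨G, hG⟩ ⟨G', hG'⟩) hF
  exact h5

end Pool.Agent.L5helper21.DS
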