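import Pool.Agent.H960R2.VB.Defs

/-!
# The bundle of a skew-symmetric matrix of constant rank two
-/

set_option autoImplicit false
set_option maxHeartbeats 400000

open MvPolynomial H960VB

namespace Pool.Agent.L5helper21.DS

variable {n : ℕ}

theorem HomZ.sub' {σ : Type*} {p q : MvPolynomial σ ℂ} {d : ℤ} (hp : HomZ p d) (hq : HomZ q d) :
    HomZ (p - q) d := by
  rcases hp with rfl | ⟨k, hk, hp⟩
  · rcases hq with rfl | ⟨l, hl, hq⟩
    · left; rw [sub_zero]
    · right; exact ⟨l, hl, by rw [zero_sub]; exact hq.neg⟩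
  · rcases hq with rfl | ⟨l, hl, hq⟩
    · right; exact ⟨k, hk, by rw [sub_zero]; exact hp⟩
    · have : k = l := by exact_mod_cast hk.trans hl.symm
      subst this
      right; exact ⟨k, hk, hp.sub hq⟩

theorem HomZ.add' {σ : Type*} {p q : MvPolynomial σ ℂ} {d : ℤ} (hp : HomZ p d) (hq : HomZ q d) :
    HomZ (p + q) d := by
  rcases hp with rfl | ⟨k, hk, hp⟩
  · rcases hq with rfl | ⟨l, hl, hq⟩
    · left; rw [add_zero]
    · right; exact ⟨l, hl, by rw [zero_add]; exact hq⟩
  · rcases hq with rfl | ⟨l, hl, hq⟩
    · right; exact ⟨k, hk, by rw [add_zero]; exact hp⟩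
    · have : k = l := by exact_mod_cast hk.trans hl.symm
      subst this
      right; exact ⟨k, hk, hp.add hq⟩

/-- A skew-symmetric matrix `A` of forms, of rank two at every point: `A j k` has degree
`κ + δ j + δ k`, the Pfaffians of order four vanish, and `A` has no zero. -/
structure Skew (n : ℕ) where
  N : ℕ
  κ : ℤ
  δ : Fin N → ℤ
  A : Fin N → Fin N → MvPolynomial (Fin (n + 1)) ℂ
  hom : ∀ j k, HomZ (A j k) (κ + δ j + δ k)
  anti : ∀ j k, A j k = - A k j
  pf : ∀ i j k l, A i j * A k l - A i k * A j l + A i l * A j k = 0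
  ne : ∀ x : Fin (n + 1) → ℂ, x ≠ 0 → ∃ j k, eval x (A j k) ≠ 0

variable (Q : Skew n)

/-- the row `(i, j, k)` of the equations of the image of a skew matrix -/
noncomputable def row {N : ℕ} {R : Type*} [Ring R] (A : Fin N → Fin N → R)
    (r : Fin N × Fin N × Fin N) (l : Fin N) : R :=
  (if l = r.1 then A r.2.1 r.2.2 else 0) - (if l = r.2.1 then A r.1 r.2.2 else 0) +
    (if l = r.2.2 then A r.1 r.2.1 else 0)

theorem row_sum {N : ℕ} {R : Type*} [CommRing R] (A : Fin N → Fin N → R)
    (r : Fin N × Fin N × Fin N) (e : Fin N → R) :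
    ∑ l, row A r l * e l = e r.1 * A r.2.1 r.2.2 - e r.2.1 * A r.1 r.2.2 +
      e r.2.2 * A r.1 r.2.1 := by
  unfold row
  simp only [add_mul, sub_mul, ite_mul, zero_mul, Finset.sum_add_distrib, Finset.sum_sub_distrib,
    Finset.sum_ite_eq', Finset.mem_univ, if_true]
  ring

/-- indices of the rows -/
def eqv (N : ℕ) : Fin N × Fin N × Fin N ≃ Fin (N * (N * N)) :=
  (Equiv.prodCongr (Equiv.refl _) finProdFinEquiv).trans finProdFinEquiv

theorem ker_two {N : ℕ} {a : Fin N → Fin N → ℂ} (hanti : ∀ j k, a j k = - a k j)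
    (hpf : ∀ i j k l, a i j * a k l - a i k * a j l + a i l * a j k = 0) {p q : Fin N}
    (hpq : a p q ≠ 0) (K : Submodule ℂ (Fin N → ℂ))
    (hK : ∀ e, e ∈ K ↔ ∀ i j k, e i * a j k - e j * a i k + e k * a i j = 0) :
    Module.finrank ℂ K = 2 := by
  have hdiag : ∀ j, a j j = 0 := by
    intro j
    have h := hanti j j
    have h2 : (2 : ℂ) * a j j = 0 := by linear_combination h
    exact (mul_eq_zero.1 h2).resolve_left two_ne_zero
  let φ : K →ₗ[ℂ] (Fin 2 → ℂ) := LinearMap.pi fun t =>
    (LinearMap.proj (if t = 0 then p else q)).comp K.subtype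
  have hφ0 : ∀ e : K, φ e 0 = (e : Fin N → ℂ) p := fun e => rfl
  have hφ1 : ∀ e : K, φ e 1 = (e : Fin N → ℂ) q := fun e => rfl
  have hinj : Function.Injective φ := by
    rw [← LinearMap.ker_eq_bot, LinearMap.ker_eq_bot']
    intro e he
    have h0 : (e : Fin N → ℂ) p = 0 := by rw [← hφ0, he]; rfl
    have h1 : (e : Fin N → ℂ) q = 0 := by rw [← hφ1, he]; rfl
    apply Subtype.ext
    funext i
    have h2 := (hK e).1 e.2 i p q
    rw [h0, h1, zero_mul, zero_mul, sub_zero, add_zero] at h2
    exact (mul_eq_zero.1 h2).resolve_right hpq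
  have hsurj : Function.Surjective φ := by
    intro v
    have hmem : (fun i => (v 0 * a i q - v 1 * a i p) / a p q) ∈ K := by
      rw [hK]
      intro i j k
      have e1 := hpf i j k q
      have e2 := hpf i j k p
      have e3 := hanti k q
      field_simp
      have a1 := hanti j k
      have a2 := hanti i k
      linear_combination v 0 * e1 - v 1 * e2
    refine ⟨⟨_, hmem⟩, ?_⟩
    funext t
    fin_cases t
    · show (v 0 * a p q - v 1 * a p p) / a p q = v 0
      rw [hdiag]
      field_simp
      ring
    · show (v 0 * a q q - v 1 * a q p) / a p q = v 1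
      rw [hdiag, hanti q p]
      field_simp
      ring
  rw [(LinearEquiv.ofBijective φ ⟨hinj, hsurj⟩).finrank_eq, Module.finrank_fintype_fun_eq_card,
    Fintype.card_fin]

/-- the image of the matrix -/
noncomputable def Skew.bundle : Bundle2 n where
  a := Q.N
  c := Q.N * (Q.N * Q.N)
  β := fun i => Q.κ + Q.δ i
  γ := fun r => 2 * Q.κ + Q.δ ((eqv Q.N).symm r).1 + Q.δ ((eqv Q.N).symm r).2.1 +
    Q.δ ((eqv Q.N).symm r).2.2
  B := Matrix.of fun r l => row Q.A ((eqv Q.N).symm r) l
  hom := by
    intro r l
    rw [Matrix.of_apply]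
    unfold row
    obtain ⟨⟨i, j, k⟩, hr⟩ : ∃ t, t = (eqv Q.N).symm r := ⟨_, rfl⟩
    rw [← hr]
    refine HomZ.add' (HomZ.sub' ?_ ?_) ?_
    · split_ifs with h
      · have h1 := Q.hom j k
        convert h1 using 1
        rw [h]
        ring
      · exact Or.inl rfl
    · split_ifs with h
      · have h1 := Q.hom i k
        convert h1 using 1
        rw [h]
        ring
      · exact Or.inl rfl
    · split_ifs with h
      · have h1 := Q.hom i j
        convert h1 using 1
        rw [h]
        ring
      · exact Or.inl rfl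
  rank_two := by
    intro x hx
    obtain ⟨p, q, hpq⟩ := Q.ne x hx
    refine ker_two (a := fun j k => eval x (Q.A j k)) (fun j k => ?_) (fun i j k l => ?_) hpq _ ?_
    · show eval x (Q.A j k) = - eval x (Q.A k j)
      rw [Q.anti j k, map_neg]
    · have := congrArg (eval x) (Q.pf i j k l)
      simpa using this
    · intro e
      rw [LinearMap.mem_ker]
      constructor
      · intro h i j k
        have h1 := congrFun h (eqv Q.N (i, j, k))
        rw [Matrix.mulVecLin_apply] at h1
        simp only [Matrix.mulVec, dotProduct] at h1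
        have h2 : ∑ l, row (fun j k => eval x (Q.A j k)) (i, j, k) l * e l = 0 := by
          refine Eq.trans (Finset.sum_congr rfl fun l _ => ?_) h1
          simp only [evm, Matrix.map_apply, Matrix.of_apply, Equiv.symm_apply_apply]
          unfold row
          simp only [map_add, map_sub, apply_ite (eval x), map_zero]
        rw [row_sum] at h2
        exact h2
      · intro h
        funext r
        obtain ⟨⟨i, j, k⟩, rfl⟩ := (eqv Q.N).surjective r
        rw [Matrix.mulVecLin_apply]
        have h2 := h i j k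
        rw [← row_sum (fun j k => eval x (Q.A j k)) (i, j, k) e] at h2
        simp only [Matrix.mulVec, dotProduct]
        refine Eq.trans (Finset.sum_congr rfl fun l _ => ?_) h2
        simp only [evm, Matrix.map_apply, Matrix.of_apply, Equiv.symm_apply_apply]
        unfold row
        simp only [map_add, map_sub, apply_ite (eval x), map_zero]

end Pool.Agent.L5helper21.DS
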