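import Pool.Agent.L5helper21.DS.Fam
import Pool.Agent.L5helper21.DS.Skew

/-!
# The bundle and the skew matrix of a generating family of sections
-/

set_option autoImplicit false
set_option maxHeartbeats 400000

open MvPolynomial H960VB H938TB Pool.Agent.W615 Pool.Agent.W467.FO

namespace Pool.Agent.L5helper21.DS

variable {n : ℕ} {E : Bundle2 n} (W : Wedge (triv E)) {N : ℕ} {δ : Fin N → ℤ}
  {g : Fin N → Vec E.a n}

/-- if the bundle does not split, any two sections of the family have a common partner -/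
theorem common (hn : 1 ≤ n) (hE : ¬ E.Splits) (hg : ∀ j, Sec E (δ j) (g j)) (hg0 : ∀ j, g j ≠ 0)
    (hgen : ∀ x : Fin (n + 1) → ℂ, x ≠ 0 → ∃ j k, eval x (W.wd (g j) (g k)) ≠ 0)
    (j k : Fin N) : ∃ l, W.wd (g j) (g l) ≠ 0 ∧ W.wd (g k) (g l) ≠ 0 := by
  by_contra hc
  push Not at hc
  apply hE
  obtain ⟨d₁, f₁, s₁, hf₁, -, hs₁, hp₁, he₁⟩ := exists_prm (hg j) (Function.ne_iff.1 (hg0 j))
  obtain ⟨d₂, f₂, s₂, hf₂, -, hs₂, hp₂, he₂⟩ := exists_prm (hg k) (Function.ne_iff.1 (hg0 k))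
  have e₁ : g j = fun i => f₁ * s₁ i := funext he₁
  have e₂ : g k = fun i => f₂ * s₂ i := funext he₂
  have hpar : ∀ l, (∃ f, ∀ i, g l i = f * s₁ i) ∨ ∃ f, ∀ i, g l i = f * s₂ i := by
    intro l
    by_cases h1 : W.wd (g j) (g l) = 0
    · left
      rw [e₁, W.smul _ _ _ hs₁.ker (hg l).ker] at h1
      exact hp₁.dvd_wd W hs₁.ker (hg l).ker ((mul_eq_zero.1 h1).resolve_left hf₁)
    · right
      have h2 := hc l h1
      rw [e₂, W.smul _ _ _ hs₂.ker (hg l).ker] at h2
      exact hp₂.dvd_wd W hs₂.ker (hg l).ker ((mul_eq_zero.1 h2).resolve_left hf₂)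
  refine splits_of_no_zero W hn hs₁ hs₂ fun x hx h0 => ?_
  obtain ⟨a, b, hab⟩ := hgen x hx
  apply hab
  rcases hpar a with ⟨p, hp⟩ | ⟨p, hp⟩ <;> rcases hpar b with ⟨q, hq⟩ | ⟨q, hq⟩ <;>
    rw [show g a = _ from funext hp, show g b = _ from funext hq]
  · rw [W.smul _ _ _ hs₁.ker (ker_mul hs₁.ker _), wd_mul_right W hs₁.ker hs₁.ker,
      wd_self W hs₁.ker, mul_zero, mul_zero, map_zero]
  · rw [W.smul _ _ _ hs₁.ker (ker_mul hs₂.ker _), wd_mul_right W hs₂.ker hs₁.ker, map_mul, map_mul,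
      h0, mul_zero, mul_zero]
  · rw [W.smul _ _ _ hs₂.ker (ker_mul hs₁.ker _), wd_mul_right W hs₁.ker hs₂.ker,
      W.anti _ _ hs₂.ker hs₁.ker, map_mul, map_mul, map_neg, h0, neg_zero, mul_zero, mul_zero]
  · rw [W.smul _ _ _ hs₂.ker (ker_mul hs₂.ker _), wd_mul_right W hs₂.ker hs₂.ker,
      wd_self W hs₂.ker, mul_zero, mul_zero, map_zero]

/-- reconstruction of a section from its wedge products with the family -/
theorem surj (hn : 1 ≤ n) (hg : ∀ j, Sec E (δ j) (g j))
    (hgen : ∀ x : Fin (n + 1) → ℂ, x ≠ 0 → ∃ j k, eval x (W.wd (g j) (g k)) ≠ 0)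
    {d : ℤ} {H : Fin N → MvPolynomial (Fin (n + 1)) ℂ}
    (hH : ∀ i, HomZ (H i) (W.κ.1 + δ i + d))
    (hrow : ∀ i j k, H i * W.wd (g j) (g k) - H j * W.wd (g i) (g k) +
      H k * W.wd (g i) (g j) = 0) :
    ∃ G, Sec E d G ∧ ∀ i, W.wd G (g i) = H i := by
  obtain ⟨p, q, hpq⟩ := hgen (fun _ => 1) (fun h => by simpa using congrFun h 0)
  have hA : W.wd (g p) (g q) ≠ 0 := fun h => hpq (by rw [h, map_zero])
  have cross : ∀ r s l, W.wd (g r) (g s) * (H q * g p l - H p * g q l) =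
      W.wd (g p) (g q) * (H s * g r l - H r * g s l) := by
    intro r s l
    have t1 := W.three (g p) (g r) (g s) (hg p).ker (hg r).ker (hg s).ker l
    have t2 := W.three (g q) (g r) (g s) (hg q).ker (hg r).ker (hg s).ker l
    have r1 := hrow p q s
    have r2 := hrow p q r
    linear_combination H q * t1 - H p * t2 - g r l * r1 + g s l * r2
  have hd : ∀ l, W.wd (g p) (g q) ∣ H q * g p l - H p * g q l := by
    intro l
    refine dvd_of_primes hA fun π hπ _ => ?_
    obtain ⟨v, hv, hv0⟩ := no_isolated_prime (by omega) π hπ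
    obtain ⟨r, s, hrs⟩ := hgen v hv
    refine ⟨W.wd (g r) (g s), H s * g r l - H r * g s l, (cross r s l).symm, ?_⟩
    rintro ⟨t, ht⟩
    apply hrs
    rw [ht, map_mul, hv0, zero_mul]
  choose G hG using hd
  have hV : ∀ l, HomZ (H q * g p l - H p * g q l) (W.κ.1 + δ p + δ q + (E.β l + d)) := by
    intro l
    have mulZ : ∀ {p q : MvPolynomial (Fin (n + 1)) ℂ} {a b : ℤ}, HomZ p a → HomZ q b →
        HomZ (p * q) (a + b) := by
      intro p q a b hp hq
      rcases hp with rfl | ⟨k, rfl, hp⟩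
      · exact Or.inl (zero_mul _)
      · rcases hq with rfl | ⟨l, rfl, hq⟩
        · exact Or.inl (mul_zero _)
        · exact Or.inr ⟨k + l, by push_cast; rfl, hp.mul hq⟩
    have h1 := mulZ (hH q) ((hg p).homZ l)
    have h2 := mulZ (hH p) ((hg q).homZ l)
    refine HomZ.sub' ?_ ?_
    · convert h1 using 1
      ring
    · convert h2 using 1
      ring
  have hK : Ker E G := by
    intro k
    apply mul_left_cancel₀ hA
    rw [mul_zero, Finset.mul_sum]
    have h1 : ∑ l, W.wd (g p) (g q) * (E.B k l * G l) =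
        H q * (∑ l, E.B k l * g p l) - H p * ∑ l, E.B k l * g q l := by
      rw [Finset.mul_sum, Finset.mul_sum, ← Finset.sum_sub_distrib]
      refine Finset.sum_congr rfl fun l _ => ?_
      linear_combination -(E.B k l) * hG l
    rw [h1, (hg p).ker k, (hg q).ker k, mul_zero, mul_zero, sub_zero]
  have hsec : Sec E d G := by
    rw [sec_iff]
    refine ⟨fun l => ?_, fun x hx => T3aux.ker_mem hK x⟩
    have h1 := hV l
    rw [hG l] at h1
    have h2 : HomZ (W.wd (g p) (g q)) (W.κ.1 + δ p + δ q) := by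
      have := wd_homZ W (hg p) (hg q)
      convert this using 1
      ring
    have h3 := homZ_of_mul h2 hA h1
    convert h3 using 1
    ring
  refine ⟨G, hsec, fun i => ?_⟩
  apply mul_left_cancel₀ hA
  rw [← W.smul _ _ _ hsec.ker (hg i).ker, ← show (fun l => H q * g p l - H p * g q l) =
    (fun l => W.wd (g p) (g q) * G l) from funext hG, wd_sub_left W (ker_mul (hg p).ker _)
    (ker_mul (hg q).ker _) (hg i).ker, W.smul _ _ _ (hg p).ker (hg i).ker,
    W.smul _ _ _ (hg q).ker (hg i).ker]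
  have h1 := hrow p q i
  linear_combination -h1

theorem inj_of_gen (hg : ∀ j, Sec E (δ j) (g j))
    (hgen : ∀ x : Fin (n + 1) → ℂ, x ≠ 0 → ∃ j k, eval x (W.wd (g j) (g k)) ≠ 0)
    {d : ℤ} {G G' : Vec E.a n} (hG : Sec E d G) (hG' : Sec E d G')
    (h : ∀ i, W.wd G (g i) = W.wd G' (g i)) : G = G' := by
  obtain ⟨p, q, hpq⟩ := hgen (fun _ => 1) (fun h => by simpa using congrFun h 0)
  have hA : W.wd (g p) (g q) ≠ 0 := fun h => hpq (by rw [h, map_zero])
  funext l
  have h1 := W.three G (g p) (g q) hG.ker (hg p).ker (hg q).ker l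
  have h2 := W.three G' (g p) (g q) hG'.ker (hg p).ker (hg q).ker l
  apply mul_left_cancel₀ hA
  rw [h p, h q] at h1
  linear_combination h1 - h2

/-- minors -/
theorem minor {d e : ℤ} {G G' : Vec E.a n} (hg : ∀ j, Sec E (δ j) (g j)) (hG : Sec E d G)
    (hG' : Sec E e G') (i j : Fin N) :
    W.wd G (g i) * W.wd G' (g j) - W.wd G (g j) * W.wd G' (g i) =
      W.wd G G' * W.wd (g i) (g j) := by
  have h1 := W.four G G' (g i) (g j) hG.ker hG'.ker (hg i).ker (hg j).ker
  linear_combination -h1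

end Pool.Agent.L5helper21.DS
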