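import Pool.Agent.L5helper21.DS.Iso

/-!
# Bundles invariant under the coordinate homologies are pullbacks
-/

set_option autoImplicit false
set_option maxHeartbeats 400000

open MvPolynomial H960VB H938TB Pool.Agent.W615 Pool.Agent.W467.FO

namespace Pool.Agent.L5helper21.DS

variable {n : ℕ}

theorem pow_ne {m : ℕ} {x : Fin (n + 1) → ℂ} (hx : x ≠ 0) : (fun s => x s ^ m) ≠ 0 := by
  obtain ⟨s, hs⟩ := Function.ne_iff.1 hx
  intro h
  exact pow_ne_zero m hs (congrFun h s)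

theorem mem_fib (F : Bundle2 n) (x : Fin (n + 1) → ℂ) (v : Fin F.a → ℂ) :
    v ∈ F.fib x ↔ ∀ r, ∑ l, eval x (F.B r l) * v l = 0 := by
  unfold Bundle2.fib
  rw [LinearMap.mem_ker]
  constructor
  · intro h r
    exact congrFun h r
  · intro h
    funext r
    exact h r

/-- the pullback of a bundle under `x ↦ (x_0^m, …, x_n^m)` -/
noncomputable def powPull (F : Bundle2 n) (m : ℕ) : Bundle2 n where
  a := F.a
  c := F.c
  β := fun i => m * F.β i
  γ := fun k => m * F.γ k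
  B := F.B.map (pw fun _ => m)
  hom := by
    intro k i
    have h := homZ_pw (m := m) (F.hom k i)
    rw [mul_sub] at h
    exact h
  rank_two := by
    intro x hx
    have h1 : evm (F.B.map (pw fun _ => m)) x = evm F.B (fun s => x s ^ m) := by
      ext k i
      exact eval_pw (fun _ => m) (F.B k i) x
    rw [h1]
    exact F.rank_two _ (pow_ne hx)

theorem exists_root {m : ℕ} (hm : 1 ≤ m) (y : Fin (n + 1) → ℂ) :
    ∃ x : Fin (n + 1) → ℂ, (fun s => x s ^ m) = y := by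
  have h : ∀ s, ∃ z : ℂ, z ^ m = y s := fun s => IsAlgClosed.exists_pow_nat_eq (y s) (by omega)
  choose x hx using h
  exact ⟨x, funext hx⟩

theorem pw_inj {m : ℕ} (hm : 1 ≤ m) :
    Function.Injective (pw (n := n) fun _ => m) := by
  intro p q h
  apply MvPolynomial.funext
  intro y
  obtain ⟨x, rfl⟩ := exists_root hm y
  rw [← eval_pw (fun _ => m) p x, ← eval_pw (fun _ => m) q x, h]

theorem pull_sec {m : ℕ} {F : Bundle2 n} {d : ℤ} {G : Vec F.a n} (h : F.IsSection d G) :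
    (powPull F m).IsSection (m * d) (fun i => pw (fun _ => m) (G i)) := by
  refine ⟨fun i => ?_, fun x hx => ?_⟩
  · have h1 := homZ_pw (m := m) (h.1 i)
    rw [mul_add] at h1
    exact h1
  · have h1 := (mem_fib F _ _).1 (h.2 _ (pow_ne (m := m) hx))
    refine (mem_fib (powPull F m) x _).2 fun r => ?_
    refine Eq.trans (Finset.sum_congr rfl fun l _ => ?_) (h1 r)
    exact congrArg₂ (· * ·) (eval_pw (fun _ => m) (F.B r l) x) (eval_pw (fun _ => m) (G l) x)

theorem mem_skew (Q : Skew n) (m : ℕ) (x : Fin (n + 1) → ℂ) (H : Vec Q.N n) :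
    evv H x ∈ (powPull Q.bundle m).fib x ↔ ∀ i j k, eval x (H i * pw (fun _ => m) (Q.A j k) -
      H j * pw (fun _ => m) (Q.A i k) + H k * pw (fun _ => m) (Q.A i j)) = 0 := by
  have hent : ∀ r : Fin Q.N × Fin Q.N × Fin Q.N,
      ∑ l : Fin Q.N, eval x (pw (fun _ => m) (row Q.A r l)) * eval x (H l) =
        eval x (H r.1 * pw (fun _ => m) (Q.A r.2.1 r.2.2) -
          H r.2.1 * pw (fun _ => m) (Q.A r.1 r.2.2) + H r.2.2 * pw (fun _ => m) (Q.A r.1 r.2.1)) := by
    intro r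
    have h1 := row_sum (fun j k => eval x (pw (fun _ => m) (Q.A j k))) r (evv H x)
    simp only [map_add, map_sub, map_mul]
    refine Eq.trans ?_ h1
    refine Finset.sum_congr rfl fun l _ => ?_
    congr 1
    unfold row
    simp only [map_add, map_sub, apply_ite (eval x), map_zero,
      apply_ite (pw (n := n) (fun _ => m))]
  have hB : ∀ r : Fin Q.N × Fin Q.N × Fin Q.N, ∀ l : Fin Q.N,
      (powPull Q.bundle m).B (eqv Q.N r) l = pw (fun _ => m) (row Q.A r l) := by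
    intro r l
    show pw (fun _ => m) (row Q.A ((eqv Q.N).symm (eqv Q.N r)) l) = _
    rw [Equiv.symm_apply_apply]
  refine (mem_fib (powPull Q.bundle m) x _).trans ?_
  constructor
  · intro h i j k
    refine (hent (i, j, k)).symm.trans (Eq.trans ?_ (h (eqv Q.N (i, j, k))))
    refine Finset.sum_congr rfl fun l _ => ?_
    exact congrArg (fun t => eval x t * eval x (H l)) (hB (i, j, k) l).symm
  · intro h r
    obtain ⟨⟨i, j, k⟩, rfl⟩ := (eqv Q.N).surjective r
    refine Eq.trans ?_ ((hent (i, j, k)).trans (h i j k))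
    refine Finset.sum_congr rfl fun l _ => ?_
    exact congrArg (fun t => eval x t * eval x (H l)) (hB (i, j, k) l)

theorem finrank_one (hn : 3 ≤ n) (i : Fin (n + 1)) (z : ℂ) : 3 ≤ Module.finrank ℂ
    (LinearMap.ker ((hg i z).mulVecLin - (1 : ℂ) • LinearMap.id)) := by
  have hle : LinearMap.ker (LinearMap.proj i : (Fin (n + 1) → ℂ) →ₗ[ℂ] ℂ) ≤
      LinearMap.ker ((hg i z).mulVecLin - (1 : ℂ) • LinearMap.id) := by
    intro x hx
    rw [LinearMap.mem_ker, LinearMap.proj_apply] at hx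
    rw [LinearMap.mem_ker, LinearMap.sub_apply, LinearMap.smul_apply, LinearMap.id_apply, one_smul,
      sub_eq_zero]
    funext s
    rw [hg_apply]
    by_cases hs : s = i
    · rw [hs, hx, mul_zero]
    · rw [if_neg hs, one_mul]
  refine le_trans ?_ (Submodule.finrank_mono hle)
  have h1 := LinearMap.finrank_range_add_finrank_ker
    (LinearMap.proj i : (Fin (n + 1) → ℂ) →ₗ[ℂ] ℂ)
  rw [Module.finrank_fintype_fun_eq_card, Fintype.card_fin] at h1
  have h2 : Module.finrank ℂ (LinearMap.range (LinearMap.proj i : (Fin (n + 1) → ℂ) →ₗ[ℂ] ℂ)) ≤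
      1 := by
    refine (Submodule.finrank_le _).trans ?_
    rw [Module.finrank_self]
  omega

theorem hg_single {i k : Fin (n + 1)} (h : k ≠ i) (z : ℂ) :
    (hg i z).mulVecLin (Pi.single k 1) = (1 : ℂ) • Pi.single k 1 := by
  funext s
  rw [hg_apply, one_smul]
  by_cases hs : s = i
  · rw [hs, Pi.single_eq_of_ne (Ne.symm h), mul_zero]
  · rw [if_neg hs, one_mul]

theorem commute (hn : 3 ≤ n) {E : Bundle2 n} (hE : ¬ E.Splits) (W : Wedge (triv E))
    {z : Fin (n + 1) → ℂ} (hz : ∀ i, z i ≠ 0) (O : ∀ i, GOp E (hg i (z i)).mulVecLin)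
    (hc : ∀ i j, i ≠ j → ∃ c : ℂ, ∀ d, (O i).lin d * (O j).lin d = c • ((O j).lin d * (O i).lin d)) :
    ∀ i j d, Commute ((O i).lin d) ((O j).lin d) := by
  intro i j d
  by_cases hij : i = j
  · rw [hij]
  obtain ⟨k, hk1, hk2⟩ : ∃ k : Fin (n + 1), k ≠ i ∧ k ≠ j := by
    have h1 : ({i, j} : Finset (Fin (n + 1))).card < (Finset.univ : Finset (Fin (n + 1))).card := by
      refine lt_of_le_of_lt Finset.card_le_two ?_
      rw [Finset.card_univ, Fintype.card_fin]
      omega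
    obtain ⟨k, -, hk⟩ := Finset.exists_mem_notMem_of_card_lt_card h1
    simp only [Finset.mem_insert, Finset.mem_singleton, not_or] at hk
    exact ⟨k, hk.1, hk.2⟩
  obtain ⟨c, hc⟩ := hc i j hij
  have h1 := Pool.Agent.W467.CO.comm_large hE (O i) (O j) W (by omega) (hg_inj i (hz i))
    (hg_inj j (hz j)) (P := Pi.single k 1) (by
      intro h
      have := congrFun h k
      rw [Pi.single_eq_same, Pi.zero_apply] at this
      exact one_ne_zero this) (hg_single hk1 _) (finrank_one hn i _) (hg_single hk2 _) hc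
  have h2 := hc d
  rw [h1, one_smul] at h2
  exact h2

/-- the family of sections of a bundle with lifts of the coordinate homologies -/
theorem main_fam (hn : 3 ≤ n) {E : Bundle2 n} (hE : ¬ E.Splits) (W : Wedge (triv E))
    {m : Fin (n + 1) → ℕ} {ζ : Fin (n + 1) → ℂ} (hm : ∀ i, 1 ≤ m i)
    (hζ : ∀ i, IsPrimitiveRoot (ζ i) (m i)) (O : ∀ i : Fin (n + 1), GOp E (hg i (ζ i)).mulVecLin)
    (hc : ∀ i j, i ≠ j →
      ∃ c : ℂ, ∀ d, (O i).lin d * (O j).lin d = c • ((O j).lin d * (O i).lin d)) :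
    ∃ (N : ℕ) (δ : Fin N → ℤ) (g : Fin N → Vec E.a n), (∀ j, Sec E (δ j) (g j)) ∧
      (∀ j, g j ≠ 0) ∧
      (∀ x : Fin (n + 1) → ℂ, x ≠ 0 → ∃ j k, eval x (W.wd (g j) (g k)) ≠ 0) ∧
      ∀ j k v, coeff v (W.wd (g j) (g k)) ≠ 0 → ∀ i, m i ∣ v i := by
  have hz : ∀ i, ζ i ≠ 0 := fun i => (hζ i).ne_zero (by have := hm i; omega)
  have hn1 : 1 ≤ n := by omega
  have hcomm := commute hn hE W hz O hc
  have hdet : ∀ i, ∃ κ : ℂ, κ ≠ 0 ∧ ∀ (a b : ℤ) (s t : Vec E.a n), Sec E a s → Sec E b t →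
      W.wd ((O i).D s) ((O i).D t) = C κ * lsub (hg i (ζ i)).mulVecLin (W.wd s t) :=
    fun i => (O i).det W hn1 (hg_inj i (hz i))
  choose κ hκ0 hκ using hdet
  have htype : ∀ i, ∃ u : ℂ, u * u = κ i ∧ ∀ (d : ℤ) (α : ℂ) (G : Vec E.a n),
      GEv (O i) d α G → α ≠ u → ∀ j, X i ∣ G j :=
    fun i => type_hyp hn hE W (hz i) (O i) (hκ0 i) (hκ i)
  choose u hu hu' using htype
  obtain ⟨N, δ, g, hg1, hg2, hg0, hgen⟩ := family W hz O hcomm hu'
  refine ⟨N, δ, g, hg1, hg0, hgen, fun j k v hv i => ?_⟩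
  have h1 := (O i).ge_wd W (hκ i) (s := ⟨g j, hg1 j⟩) (t := ⟨g k, hg1 k⟩)
    ((gev_iff (O i)).1 (hg2 j i)) ((gev_iff (O i)).1 (hg2 k i))
  rw [hu i] at h1
  exact dvd_exp (hζ i) (hκ0 i) h1 hv

theorem main (hn : 3 ≤ n) (E : Bundle2 n) (hE : ¬ E.Splits) {m : ℕ} (hm : 1 ≤ m)
    {ζ : Fin (n + 1) → ℂ} (hζ : ∀ i, IsPrimitiveRoot (ζ i) m)
    (O : ∀ i : Fin (n + 1), GOp E (hg i (ζ i)).mulVecLin)
    (hc : ∀ i j, i ≠ j →
      ∃ c : ℂ, ∀ d, (O i).lin d * (O j).lin d = c • ((O j).lin d * (O i).lin d)) :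
    ∃ (F : Bundle2 n) (e : ℤ) (Ψ : Vec E.a n → Vec F.a n), ¬ F.Splits ∧
      (∀ d G, E.IsSection d G → (powPull F m).IsSection (d + e) (Ψ G)) ∧
      (∀ d G G', E.IsSection d G → E.IsSection d G' → Ψ (G + G') = Ψ G + Ψ G') ∧
      (∀ d (p : MvPolynomial (Fin (n + 1)) ℂ) G, E.IsSection d G → Ψ (p • G) = p • Ψ G) ∧
      (∀ d H, (powPull F m).IsSection (d + e) H → ∃! G, E.IsSection d G ∧ Ψ G = H) := by
  have hn1 : 1 ≤ n := by omega
  obtain ⟨W⟩ := exists_wedge hn1 (triv E)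
  obtain ⟨N, δ, g, hg1, hg0, hgen, hdvd⟩ := main_fam hn hE W (m := fun _ => m)
    (fun _ => hm) hζ O hc
  -- the exponents
  have hexp : ∀ j k, ∃ q : MvPolynomial (Fin (n + 1)) ℂ,
      pw (fun _ => m) q = W.wd (g j) (g k) := fun j k => exists_pw fun v hv => hdvd j k v hv
  choose A₀ hA₀ using hexp
  -- the degrees
  have hmz : (m : ℤ) ≠ 0 := by exact_mod_cast (by omega : m ≠ 0)
  have hdeg : ∀ j k, W.wd (g j) (g k) ≠ 0 → (m : ℤ) ∣ δ j + δ k + W.κ.1 := by
    intro j k h0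
    have h1 := wd_homZ W (hg1 j) (hg1 k)
    rcases h1 with h1 | ⟨t, ht, h1⟩
    · exact absurd h1 h0
    obtain ⟨v, hv⟩ := ne_zero_iff.1 h0
    have h2 := h1 hv
    rw [Finsupp.weight_apply, Finsupp.sum_fintype _ _ (by simp)] at h2
    have h3 : ∑ i, v i = t := by simpa using h2
    rw [← ht, ← h3]
    have h4 : m ∣ ∑ i, v i := Finset.dvd_sum fun i _ => hdvd j k v hv i
    exact_mod_cast h4
  have hcong : ∀ j k, (m : ℤ) ∣ δ j - δ k := by
    intro j k
    obtain ⟨l, h1, h2⟩ := common W hn1 hE hg1 hg0 hgen j k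
    have h3 := dvd_sub (hdeg j l h1) (hdeg k l h2)
    have h4 : δ j + δ l + W.κ.1 - (δ k + δ l + W.κ.1) = δ j - δ k := by ring
    rwa [h4] at h3
  obtain ⟨p, q, hpq⟩ := hgen (fun _ => 1) (fun h => by simpa using congrFun h 0)
  have hApq : W.wd (g p) (g q) ≠ 0 := fun h => hpq (by rw [h, map_zero])
  set ρ : ℤ := δ p with hρ
  have hδ : ∀ j, ∃ t, δ j = ρ + m * t := by
    intro j
    obtain ⟨t, ht⟩ := hcong j p
    exact ⟨t, by rw [← ht]; ring⟩
  choose δ₀ hδ₀ using hδ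
  obtain ⟨κ₀, hκ₀⟩ : ∃ κ₀ : ℤ, W.κ.1 + 2 * ρ = m * κ₀ := by
    have h1 := dvd_add (hdeg p q hApq) (hcong p q)
    obtain ⟨t, ht⟩ := h1
    exact ⟨t, by rw [← ht, hρ]; ring⟩
  have hpne : ∀ x : Fin (n + 1) → ℂ, x ≠ 0 →
      ∃ j k, eval x (A₀ j k) ≠ 0 := by
    intro y hy
    obtain ⟨x, rfl⟩ := exists_root hm y
    have hx : x ≠ 0 := by
      rintro rfl
      apply hy
      funext s
      show (0 : ℂ) ^ m = 0
      exact zero_pow (by omega)
    obtain ⟨j, k, hjk⟩ := hgen x hx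
    refine ⟨j, k, ?_⟩
    rw [← eval_pw (fun _ => m), hA₀]
    exact hjk
  let Q : Skew n :=
    { N := N
      κ := κ₀
      δ := δ₀
      A := A₀
      hom := fun j k => by
        apply homZ_of_pw hm
        rw [hA₀]
        have h1 := wd_homZ W (hg1 j) (hg1 k)
        convert h1 using 1
        rw [mul_add, mul_add, ← hκ₀, hδ₀ j, hδ₀ k]
        ring
      anti := fun j k => by
        apply pw_inj hm
        rw [map_neg, hA₀, hA₀]
        exact W.anti _ _ (hg1 j).ker (hg1 k).ker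
      pf := fun i j k l => by
        apply pw_inj hm
        rw [map_zero, map_add, map_sub, map_mul, map_mul, map_mul, hA₀, hA₀, hA₀, hA₀, hA₀, hA₀]
        exact W.four _ _ _ _ (hg1 i).ker (hg1 j).ker (hg1 k).ker (hg1 l).ker
      ne := hpne }
  -- sections of the pullback
  have hrow : ∀ H : Vec N n, (∀ x : Fin (n + 1) → ℂ, x ≠ 0 →
      evv H x ∈ (powPull Q.bundle m).fib x) ↔ ∀ i j k, H i * W.wd (g j) (g k) -
        H j * W.wd (g i) (g k) + H k * W.wd (g i) (g j) = 0 := by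
    intro H
    have hmem : ∀ x : Fin (n + 1) → ℂ, evv H x ∈ (powPull Q.bundle m).fib x ↔
        ∀ i j k, eval x (H i * W.wd (g j) (g k) -
        H j * W.wd (g i) (g k) + H k * W.wd (g i) (g j)) = 0 := by
      intro x
      have h1 := mem_skew Q m x H
      simp only [← hA₀]
      exact h1
    constructor
    · intro h i j k
      have h1 : (H i * W.wd (g j) (g k) - H j * W.wd (g i) (g k) +
          H k * W.wd (g i) (g j)) * X 0 = 0 := by
        apply MvPolynomial.funext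
        intro x
        rw [map_mul, map_zero]
        by_cases hx : x = 0
        · rw [hx, eval_X]
          simp
        · rw [(hmem x).1 (h x hx) i j k, zero_mul]
      exact (mul_eq_zero.1 h1).resolve_right (X_ne_zero 0)
    · intro h x _
      rw [hmem x]
      intro i j k
      rw [h i j k, map_zero]
  let Ψ : Vec E.a n → Vec N n := fun G i => W.wd G (g i)
  have hΨ : ∀ d G, E.IsSection d G → (powPull Q.bundle m).IsSection (d + -ρ) (Ψ G) := by
    intro d G hG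
    have hG' := sec_iff.2 hG
    refine ⟨fun i => ?_, ?_⟩
    · have h1 := wd_homZ W hG' (hg1 i)
      show HomZ (W.wd G (g i)) (m * (κ₀ + δ₀ i) + (d + -ρ))
      convert h1 using 1
      rw [mul_add, ← hκ₀, hδ₀ i]
      ring
    · refine (hrow (Ψ G)).2 fun i j k => ?_
      exact W.four G (g i) (g j) (g k) hG'.ker (hg1 i).ker (hg1 j).ker (hg1 k).ker
  have hbij : ∀ d H, (powPull Q.bundle m).IsSection (d + -ρ) H →
      ∃! G, E.IsSection d G ∧ Ψ G = H := by
    intro d H hH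
    obtain ⟨G, hG1, hG2⟩ := surj W hn1 hg1 hgen (d := d) (H := H) (fun i => by
      have h1 : HomZ (H i) (m * (κ₀ + δ₀ i) + (d + -ρ)) := hH.1 i
      convert h1 using 1
      rw [mul_add, ← hκ₀, hδ₀ i]
      ring) ((hrow H).1 hH.2)
    refine ⟨G, ⟨sec_iff.1 hG1, funext hG2⟩, ?_⟩
    rintro G' ⟨hG', hG''⟩
    refine inj_of_gen W hg1 hgen (sec_iff.2 hG') hG1 fun i => ?_
    rw [hG2 i]
    exact congrFun hG'' i
  refine ⟨Q.bundle, -ρ, Ψ, ?_, hΨ, ?_, ?_, hbij⟩
  · -- the bundle does not split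
    rintro ⟨a, b, h₁, h₂, hh₁, hh₂, hli⟩
    apply hE
    have k₁ := pull_sec (m := m) hh₁
    have k₂ := pull_sec (m := m) hh₂
    obtain ⟨G₁, ⟨hG₁, e₁⟩, -⟩ := hbij (m * (-a) + ρ) _ (by
      have : (m : ℤ) * (-a) + ρ + -ρ = m * (-a) := by ring
      rw [this]
      exact k₁)
    obtain ⟨G₂, ⟨hG₂, e₂⟩, -⟩ := hbij (m * (-b) + ρ) _ (by
      have : (m : ℤ) * (-b) + ρ + -ρ = m * (-b) := by ring
      rw [this]
      exact k₂)
    refine splits_of_no_zero W hn1 (sec_iff.2 hG₁) (sec_iff.2 hG₂) fun x hx h0 => ?_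
    have h3 := hli _ (pow_ne (m := m) hx)
    obtain ⟨i, j, hij⟩ : ∃ i j : Fin N, evv h₁ (fun s => x s ^ m) i * evv h₂ (fun s => x s ^ m) j -
      evv h₁ (fun s => x s ^ m) j * evv h₂ (fun s => x s ^ m) i ≠ 0 := (T3aux.li_iff _ _).1 h3
    apply hij
    have h4 := congrArg (eval x) (minor W hg1 (sec_iff.2 hG₁) (sec_iff.2 hG₂) i j)
    rw [map_mul (eval x) (W.wd G₁ G₂), h0, zero_mul] at h4
    have f₁ : ∀ i : Fin N, eval x (W.wd G₁ (g i)) = evv h₁ (fun s => x s ^ m) i := by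
      intro i
      exact (congrArg (eval x) (congrFun e₁ i)).trans (eval_pw _ _ _)
    have f₂ : ∀ i : Fin N, eval x (W.wd G₂ (g i)) = evv h₂ (fun s => x s ^ m) i := by
      intro i
      exact (congrArg (eval x) (congrFun e₂ i)).trans (eval_pw _ _ _)
    rw [← f₁ i, ← f₁ j, ← f₂ i, ← f₂ j, ← map_mul, ← map_mul, ← map_sub]
    exact h4
  · intro d G G' hG hG'
    funext i
    exact wd_add_left W (sec_iff.2 hG).ker (sec_iff.2 hG').ker (hg1 i).ker
  · intro d p G hG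
    funext i
    exact W.smul p G (g i) (sec_iff.2 hG).ker (hg1 i).ker

/-- the skew matrix of a generating family -/
noncomputable def skewOf {E : Bundle2 n} (W : Wedge (triv E)) {N : ℕ} {δ : Fin N → ℤ}
    {g : Fin N → Vec E.a n} (hg : ∀ j, Sec E (δ j) (g j))
    (hgen : ∀ x : Fin (n + 1) → ℂ, x ≠ 0 → ∃ j k, eval x (W.wd (g j) (g k)) ≠ 0) : Skew n where
  N := N
  κ := W.κ.1
  δ := δ
  A := fun j k => W.wd (g j) (g k)
  hom := fun j k => by
    have h1 := wd_homZ W (hg j) (hg k)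
    convert h1 using 1
    ring
  anti := fun j k => W.anti _ _ (hg j).ker (hg k).ker
  pf := fun i j k l => W.four _ _ _ _ (hg i).ker (hg j).ker (hg k).ker (hg l).ker
  ne := hgen

theorem mem_skew' (Q : Skew n) (x : Fin (n + 1) → ℂ) (H : Vec Q.N n) :
    evv H x ∈ Q.bundle.fib x ↔ ∀ i j k, eval x (H i * Q.A j k -
      H j * Q.A i k + H k * Q.A i j) = 0 := by
  have hent : ∀ r : Fin Q.N × Fin Q.N × Fin Q.N,
      ∑ l : Fin Q.N, eval x (row Q.A r l) * eval x (H l) =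
        eval x (H r.1 * Q.A r.2.1 r.2.2 - H r.2.1 * Q.A r.1 r.2.2 + H r.2.2 * Q.A r.1 r.2.1) := by
    intro r
    have h1 := row_sum (fun j k => eval x (Q.A j k)) r (evv H x)
    simp only [map_add, map_sub, map_mul]
    refine Eq.trans ?_ h1
    refine Finset.sum_congr rfl fun l _ => ?_
    congr 1
    unfold row
    simp only [map_add, map_sub, apply_ite (eval x), map_zero]
  have hB : ∀ r : Fin Q.N × Fin Q.N × Fin Q.N, ∀ l : Fin Q.N,
      Q.bundle.B (eqv Q.N r) l = row Q.A r l := by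
    intro r l
    show row Q.A ((eqv Q.N).symm (eqv Q.N r)) l = _
    rw [Equiv.symm_apply_apply]
  refine (mem_fib Q.bundle x _).trans ?_
  constructor
  · intro h i j k
    refine (hent (i, j, k)).symm.trans (Eq.trans ?_ (h (eqv Q.N (i, j, k))))
    refine Finset.sum_congr rfl fun l _ => ?_
    exact congrArg (fun t => eval x t * eval x (H l)) (hB (i, j, k) l).symm
  · intro h r
    obtain ⟨⟨i, j, k⟩, rfl⟩ := (eqv Q.N).surjective r
    refine Eq.trans ?_ ((hent (i, j, k)).trans (h i j k))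
    refine Finset.sum_congr rfl fun l _ => ?_
    exact congrArg (fun t => eval x t * eval x (H l)) (hB (i, j, k) l)

theorem general (hn : 3 ≤ n) (E : Bundle2 n) (hE : ¬ E.Splits) {m : Fin (n + 1) → ℕ}
    {ζ : Fin (n + 1) → ℂ} (hm : ∀ i, 1 ≤ m i) (hζ : ∀ i, IsPrimitiveRoot (ζ i) (m i))
    (O : ∀ i : Fin (n + 1), GOp E (hg i (ζ i)).mulVecLin)
    (hc : ∀ i j, i ≠ j →
      ∃ c : ℂ, ∀ d, (O i).lin d * (O j).lin d = c • ((O j).lin d * (O i).lin d)) :
    ∃ (F : Bundle2 n) (Ψ : Vec E.a n → Vec F.a n), (∀ k i, ∃ q, F.B k i = pw m q) ∧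
      (∀ d G, E.IsSection d G → F.IsSection d (Ψ G)) ∧
      (∀ d G G', E.IsSection d G → E.IsSection d G' → Ψ (G + G') = Ψ G + Ψ G') ∧
      (∀ d (p : MvPolynomial (Fin (n + 1)) ℂ) G, E.IsSection d G → Ψ (p • G) = p • Ψ G) ∧
      (∀ d H, F.IsSection d H → ∃! G, E.IsSection d G ∧ Ψ G = H) := by
  have hn1 : 1 ≤ n := by omega
  obtain ⟨W⟩ := exists_wedge hn1 (triv E)
  obtain ⟨N, δ, g, hg1, hg0, hgen, hdvd⟩ := main_fam hn hE W hm hζ O hc
  have hexp : ∀ j k, ∃ q : MvPolynomial (Fin (n + 1)) ℂ,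
      pw m q = W.wd (g j) (g k) := fun j k => exists_pw fun v hv => hdvd j k v hv
  set Q := skewOf W hg1 hgen with hQ
  have hrow : ∀ H : Vec N n, (∀ x : Fin (n + 1) → ℂ, x ≠ 0 →
      evv H x ∈ Q.bundle.fib x) ↔ ∀ i j k, H i * W.wd (g j) (g k) -
        H j * W.wd (g i) (g k) + H k * W.wd (g i) (g j) = 0 := by
    intro H
    have hmem : ∀ x : Fin (n + 1) → ℂ, evv H x ∈ Q.bundle.fib x ↔
        ∀ i j k, eval x (H i * W.wd (g j) (g k) -
        H j * W.wd (g i) (g k) + H k * W.wd (g i) (g j)) = 0 := fun x => mem_skew' Q x H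
    constructor
    · intro h i j k
      have h1 : (H i * W.wd (g j) (g k) - H j * W.wd (g i) (g k) +
          H k * W.wd (g i) (g j)) * X 0 = 0 := by
        apply MvPolynomial.funext
        intro x
        rw [map_mul, map_zero]
        by_cases hx : x = 0
        · rw [hx, eval_X]
          simp
        · rw [(hmem x).1 (h x hx) i j k, zero_mul]
      exact (mul_eq_zero.1 h1).resolve_right (X_ne_zero 0)
    · intro h x _
      rw [hmem x]
      intro i j k
      rw [h i j k, map_zero]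
  let Ψ : Vec E.a n → Vec N n := fun G i => W.wd G (g i)
  refine ⟨Q.bundle, Ψ, ?_, ?_, ?_, ?_, ?_⟩
  · intro r l
    show ∃ q, row (fun j k => W.wd (g j) (g k)) ((eqv N).symm r) l = pw m q
    choose A₀ hA₀ using hexp
    refine ⟨row A₀ ((eqv N).symm r) l, ?_⟩
    unfold row
    simp only [← hA₀, map_add, map_sub, apply_ite (pw (n := n) m), map_zero]
  · intro d G hG
    have hG' := sec_iff.2 hG
    refine ⟨fun i => ?_, ?_⟩
    · have h1 := wd_homZ W hG' (hg1 i)
      show HomZ (W.wd G (g i)) (W.κ.1 + δ i + d)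
      convert h1 using 1
      ring
    · refine (hrow (Ψ G)).2 fun i j k => ?_
      exact W.four G (g i) (g j) (g k) hG'.ker (hg1 i).ker (hg1 j).ker (hg1 k).ker
  · intro d G G' hG hG'
    funext i
    exact wd_add_left W (sec_iff.2 hG).ker (sec_iff.2 hG').ker (hg1 i).ker
  · intro d p G hG
    funext i
    exact W.smul p G (g i) (sec_iff.2 hG).ker (hg1 i).ker
  · intro d H hH
    obtain ⟨G, hG1, hG2⟩ := surj W hn1 hg1 hgen (d := d) (H := H) (fun i => hH.1 i)
      ((hrow H).1 hH.2)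
    refine ⟨G, ⟨sec_iff.1 hG1, funext hG2⟩, ?_⟩
    rintro G' ⟨hG', hG''⟩
    refine inj_of_gen W hg1 hgen (sec_iff.2 hG') hG1 fun i => ?_
    rw [hG2 i]
    exact congrFun hG'' i

end Pool.Agent.L5helper21.DS
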