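import Pool.Agent.W467.CO.B

/-!
# Homologies and polynomials
-/

set_option autoImplicit false
set_option maxHeartbeats 400000

open MvPolynomial H960VB H938TB Pool.Agent.W615 Pool.Agent.W467.FO

namespace Pool.Agent.L5helper21.DS

variable {n : ℕ}

/-- the multiplication of the coordinate `i` by `z` -/
def hg (i : Fin (n + 1)) (z : ℂ) : Matrix (Fin (n + 1)) (Fin (n + 1)) ℂ :=
  Matrix.diagonal (fun s => if s = i then z else 1)

theorem hg_apply (i : Fin (n + 1)) (z : ℂ) (x : Fin (n + 1) → ℂ) (s : Fin (n + 1)) :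
    (hg i z).mulVecLin x s = (if s = i then z else 1) * x s := by
  rw [Matrix.mulVecLin_apply, hg, Matrix.mulVec_diagonal]

theorem hg_inj (i : Fin (n + 1)) {z : ℂ} (hz : z ≠ 0) :
    Function.Injective (hg i z).mulVecLin := by
  intro x y h
  funext s
  have h1 := congrFun h s
  rw [hg_apply, hg_apply] at h1
  refine mul_left_cancel₀ ?_ h1
  split_ifs
  · exact hz
  · exact one_ne_zero

theorem lsub_X (i : Fin (n + 1)) (z : ℂ) (s : Fin (n + 1)) :
    lsub (hg i z).mulVecLin (X s) = C (if s = i then z else 1) * X s := by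
  unfold lsub
  rw [aeval_X, Finset.sum_eq_single s]
  · rw [hg_apply, Pi.single_eq_same, mul_one]
  · intro t _ hts
    rw [hg_apply, Pi.single_eq_of_ne (Ne.symm hts), mul_zero, C_0, zero_mul]
  · intro h; exact absurd (Finset.mem_univ _) h

theorem lsub_monomial (i : Fin (n + 1)) (z : ℂ) (u : Fin (n + 1) →₀ ℕ) (c : ℂ) :
    lsub (hg i z).mulVecLin (monomial u c) = monomial u (z ^ u i * c) := by
  rw [monomial_eq, map_mul, Finsupp.prod_fintype _ _ (by intro i; simp), map_prod]
  have h1 : ∀ s, lsub (hg i z).mulVecLin ((X s : MvPolynomial (Fin (n + 1)) ℂ) ^ u s) =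
      C ((if s = i then z else 1) ^ u s) * X s ^ u s := by
    intro s
    rw [map_pow, lsub_X, mul_pow, C_pow]
  have h2 : lsub (hg i z).mulVecLin (C c) = C c := (lsub _).commutes c
  simp_rw [h1]
  rw [Finset.prod_mul_distrib, h2, ← map_prod]
  have h3 : ∏ s, (if s = i then z else 1) ^ u s = z ^ u i := by
    rw [Finset.prod_eq_single i]
    · rw [if_pos rfl]
    · intro s _ hs
      rw [if_neg hs, one_pow]
    · intro h; exact absurd (Finset.mem_univ _) h
  rw [h3, monomial_eq, Finsupp.prod_fintype _ _ (by intro i; simp), C_mul]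
  ring

theorem coeff_lsub (i : Fin (n + 1)) (z : ℂ) (p : MvPolynomial (Fin (n + 1)) ℂ)
    (u : Fin (n + 1) →₀ ℕ) : coeff u (lsub (hg i z).mulVecLin p) = z ^ u i * coeff u p := by
  induction p using MvPolynomial.induction_on' with
  | monomial v c =>
    rw [lsub_monomial, coeff_monomial, coeff_monomial]
    split_ifs with h
    · rw [h]
    · rw [mul_zero]
  | add p q hp hq => rw [map_add, coeff_add, hp, hq, coeff_add, mul_add]

/-- a polynomial which is generalised invariant under a homology -/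
theorem coeff_pow (i : Fin (n + 1)) (z κ μ : ℂ) (u : Fin (n + 1) →₀ ℕ) : ∀ (K : ℕ)
    (p : MvPolynomial (Fin (n + 1)) ℂ),
    coeff u (((hM (hg i z).mulVecLin κ - μ • 1) ^ K) p) = (κ * z ^ u i - μ) ^ K * coeff u p := by
  intro K
  induction K with
  | zero => intro p; rw [pow_zero, pow_zero, one_mul, Module.End.one_apply]
  | succ K ih =>
    intro p
    have h1 : (hM (hg i z).mulVecLin κ - μ • 1) p = κ • lsub (hg i z).mulVecLin p - μ • p := rfl
    rw [pow_succ, Module.End.mul_apply, ih, h1, coeff_sub, coeff_smul, coeff_smul, coeff_lsub,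
      smul_eq_mul, smul_eq_mul]
    ring

theorem dvd_exp {i : Fin (n + 1)} {z κ : ℂ} {m : ℕ} (hz : IsPrimitiveRoot z m) (hκ : κ ≠ 0)
    {p : MvPolynomial (Fin (n + 1)) ℂ}
    (h : ∃ K : ℕ, ((hM (hg i z).mulVecLin κ - κ • 1) ^ K) p = 0) {u : Fin (n + 1) →₀ ℕ}
    (hu : coeff u p ≠ 0) : m ∣ u i := by
  obtain ⟨K, hK⟩ := h
  have h1 := coeff_pow i z κ κ u K p
  rw [hK, coeff_zero] at h1
  have h2 := (mul_eq_zero.1 h1.symm).resolve_right hu
  by_cases hK0 : K = 0
  · rw [hK0, pow_zero] at h2
    exact absurd h2 one_ne_zero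
  · have h4 := pow_eq_zero_iff hK0 |>.1 h2
    have h5 : z ^ u i = 1 := by
      apply mul_left_cancel₀ hκ
      linear_combination h4
    exact hz.dvd_of_pow_eq_one _ h5

/-- divisibility by a coordinate -/
theorem X_dvd {i : Fin (n + 1)} {p : MvPolynomial (Fin (n + 1)) ℂ}
    (h : ∀ x : Fin (n + 1) → ℂ, x i = 0 → eval x p = 0) : X i ∣ p := by
  rw [X_dvd_iff_modMonomial_eq_zero]
  set r := p.modMonomial (Finsupp.single i 1) with hr
  have hpr : p = X i * (p.divMonomial (Finsupp.single i 1)) + r := (divMonomial_add_modMonomial_single p i).symm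
  have hri : ∀ u, coeff u r ≠ 0 → u i = 0 := by
    intro u hu
    by_contra h0
    apply hu
    rw [hr]
    apply coeff_modMonomial_of_le
    rw [Finsupp.single_le_iff]
    omega
  have hev : ∀ x : Fin (n + 1) → ℂ, eval x r = eval (Function.update x i 0) r := by
    intro x
    rw [eval_eq', eval_eq']
    refine Finset.sum_congr rfl fun u hu => ?_
    congr 1
    refine Finset.prod_congr rfl fun s _ => ?_
    by_cases hs : s = i
    · subst hs
      rw [hri u (mem_support_iff.1 hu), pow_zero, pow_zero]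
    · rw [Function.update_of_ne hs]
  apply MvPolynomial.funext
  intro x
  rw [hev x, map_zero]
  have h1 := h (Function.update x i 0) (Function.update_self _ _ _)
  rw [hpr, map_add, map_mul, eval_X, Function.update_self, zero_mul, zero_add] at h1
  exact h1

theorem homZ_of_mul {p q : MvPolynomial (Fin (n + 1)) ℂ} {e f : ℤ} (hp : HomZ p e)
    (hp0 : p ≠ 0) (h : HomZ (p * q) f) : HomZ q (f - e) := by
  by_cases hq : q = 0
  · exact Or.inl hq
  have h1 := wh_triv h
  obtain ⟨a, b, hab, ha, hb⟩ := hom_of_mul _ h1 (mul_ne_zero hp0 hq)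
  have h2 : a = (e, 0) := ha.inj_right hp0 (wh_triv hp)
  have h3 : b = ((f - e, 0) : M) := by
    rw [h2] at hab
    have h4 : b = (f, 0) - ((e, 0) : M) := eq_sub_of_add_eq' hab
    rw [h4]
    ext <;> simp
  have h5 := homZ_of (τ := b) hb
  rw [h3] at h5
  exact h5

/-- polynomials in the powers of the coordinates -/
noncomputable def pw (m : Fin (n + 1) → ℕ) :
    MvPolynomial (Fin (n + 1)) ℂ →ₐ[ℂ] MvPolynomial (Fin (n + 1)) ℂ := aeval (fun s => X s ^ m s)

theorem eval_pw (m : Fin (n + 1) → ℕ) (q : MvPolynomial (Fin (n + 1)) ℂ)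
    (x : Fin (n + 1) → ℂ) : eval x (pw m q) = eval (fun s => x s ^ m s) q := by
  unfold pw
  rw [← MvPolynomial.aeval_eq_eval, ← MvPolynomial.aeval_eq_eval]
  have h := MvPolynomial.algHom_ext (f := (aeval x : MvPolynomial (Fin (n + 1)) ℂ →ₐ[ℂ] ℂ).comp
    (aeval (fun s => (X s : MvPolynomial (Fin (n + 1)) ℂ) ^ m s)))
    (g := (aeval (fun s => x s ^ m s) : MvPolynomial (Fin (n + 1)) ℂ →ₐ[ℂ] ℂ)) (by
      intro s
      rw [AlgHom.comp_apply, aeval_X, aeval_X, map_pow, aeval_X])
  exact congrArg (fun f => f q) h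

theorem pw_monomial (m : Fin (n + 1) → ℕ) (v : Fin (n + 1) →₀ ℕ) (c : ℂ) :
    pw m (monomial v c) = monomial (Finsupp.equivFunOnFinite.symm fun s => m s * v s) c := by
  unfold pw
  rw [aeval_monomial, Finsupp.prod_fintype _ _ (by intro i; simp), monomial_eq,
    Finsupp.prod_fintype _ _ (by intro i; simp), MvPolynomial.algebraMap_eq]
  congr 1
  refine Finset.prod_congr rfl fun s _ => ?_
  rw [← pow_mul]
  rfl

theorem exists_pw {m : Fin (n + 1) → ℕ} {p : MvPolynomial (Fin (n + 1)) ℂ}
    (h : ∀ u, coeff u p ≠ 0 → ∀ i, m i ∣ u i) : ∃ q, pw m q = p := by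
  refine ⟨∑ u ∈ p.support, monomial (Finsupp.equivFunOnFinite.symm fun s => u s / m s)
    (coeff u p), ?_⟩
  rw [map_sum]
  conv_rhs => rw [p.as_sum]
  refine Finset.sum_congr rfl fun u hu => ?_
  have h9 : (Finsupp.equivFunOnFinite.symm fun s => m s * (Finsupp.equivFunOnFinite.symm
      (fun s => u s / m s) : Fin (n + 1) →₀ ℕ) s) = u := by
    ext s
    show m s * (u s / m s) = u s
    exact Nat.mul_div_cancel' (h u (mem_support_iff.1 hu) s)
  rw [pw_monomial, h9]

/-- homogeneity of `q` if all the powers are equal -/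
theorem homZ_of_pw {m : ℕ} (hm : 1 ≤ m) {q : MvPolynomial (Fin (n + 1)) ℂ} {e : ℤ}
    (h : HomZ (pw (fun _ => m) q) (m * e)) : HomZ q e := by
  by_cases hq : q = 0
  · exact Or.inl hq
  have hc : ∀ u, coeff (Finsupp.equivFunOnFinite.symm fun s => m * u s)
      (pw (fun _ => m) q) = coeff u q := by
    intro u
    have h1 : pw (fun _ => m) q = ∑ v ∈ q.support, monomial
        (Finsupp.equivFunOnFinite.symm fun s => m * v s) (coeff v q) := by
      conv_lhs => rw [q.as_sum]
      rw [map_sum]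
      exact Finset.sum_congr rfl fun v _ => pw_monomial _ _ _
    rw [h1, coeff_sum]
    have h2 : ∀ v : Fin (n + 1) →₀ ℕ, coeff (Finsupp.equivFunOnFinite.symm fun s => m * u s)
        (monomial (Finsupp.equivFunOnFinite.symm fun s => m * v s) (coeff v q)) =
        if v = u then coeff v q else 0 := by
      intro v
      rw [coeff_monomial]
      by_cases hvu : v = u
      · rw [if_pos hvu, if_pos (by rw [hvu])]
      · rw [if_neg hvu, if_neg]
        intro h3
        apply hvu
        ext s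
        have h4 := DFunLike.congr_fun h3 s
        have h5 : m * v s = m * u s := h4
        exact Nat.eq_of_mul_eq_mul_left hm h5
    simp_rw [h2]
    rw [Finset.sum_ite_eq']
    split_ifs with h3
    · rfl
    · exact (notMem_support_iff.1 h3).symm
  rcases h with h | ⟨k, hk, h⟩
  · exfalso
    apply hq
    ext u
    rw [← hc u, h, coeff_zero, coeff_zero]
  · have key : ∀ u, coeff u q ≠ 0 → (m : ℤ) * (∑ s, u s : ℕ) = m * e := by
      intro u hu
      rw [← hc u] at hu
      have h1 := h hu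
      rw [Finsupp.weight_apply, Finsupp.sum_fintype _ _ (by simp)] at h1
      have h2 : ∑ s, m * u s = k := by simpa using h1
      rw [← hk, ← h2, ← Finset.mul_sum]
      push_cast
      rfl
    have hm0 : (m : ℤ) ≠ 0 := by exact_mod_cast (by omega : m ≠ 0)
    obtain ⟨u, hu⟩ := ne_zero_iff.1 hq
    right
    refine ⟨∑ s, u s, mul_left_cancel₀ hm0 (key u hu), ?_⟩
    intro v hv
    have h1 := mul_left_cancel₀ hm0 ((key v hv).trans (key u hu).symm)
    rw [Finsupp.weight_apply, Finsupp.sum_fintype _ _ (by simp)]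
    have h2 : ∑ s, v s = ∑ s, u s := by exact_mod_cast h1
    simpa using h2

theorem homZ_pw {m : ℕ} {q : MvPolynomial (Fin (n + 1)) ℂ} {e : ℤ} (h : HomZ q e) :
    HomZ (pw (fun _ => m) q) (m * e) := by
  rcases h with rfl | ⟨k, rfl, h⟩
  · left; rw [map_zero]
  · right
    refine ⟨m * k, by push_cast; rfl, ?_⟩
    unfold pw
    have h1 := h.aeval (n := m) (fun s => (X s : MvPolynomial (Fin (n + 1)) ℂ) ^ m) (fun s => by
      have := (isHomogeneous_X ℂ s).pow (σ := Fin (n + 1)) m
      rwa [one_mul] at this)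
    exact h1

end Pool.Agent.L5helper21.DS
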